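import Pool.Agent.Lib.PolyTime.Comp
import Pool.Agent.Lib.PolyTime.More

/-!
# Polynomial time toolkit

* `Pool.Agent.Lib.PolyTime.PT f` (for types with a class instance `Enc`) says that `f` is computed
  in polynomial time; `PT.computable : PT f → Nonempty (Turing.TM2ComputableInPolyTime code code f)`
  turns this into Mathlib's notion (multi-stack Turing machines), where `code a : List Bool` is the
  bit string of `a` (preorder serialisation of the tree `enc a`); `code_injective`.
* `computable_comp`: composition of arbitrary `TM2ComputableInPolyTime` functions.
* Instances `Enc`: `Unit, Bool, ℕ` (unary), `α × β`, `α ⊕ β`, `Option α`, `List α`, subtypes, `BT`,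
  `Enc.ofInj f hf` for anything that embeds in an encoded type.
* Closure: `PT.id, comp, comp₂, const, pair, fst, snd, fst', snd', congr, restrict, val, of_enc_eq`,
  `cond, cond'` (branches only defined on the subtypes), `ite, not, and, or, eq, eqConst, finCases`
  (dispatch over a finite type), `ofFintype`, lists: `cons, listCases, isNil, tail, head?, reverse,
  append, map, flatMap, filter, any, all, length, drop, getElem?, range`, folds: `foldl` (with a
  polynomial bound on intermediate results), `foldl_add` (each step adds a bounded amount),
  `iterate`; naturals: `succ, pred, add, addConst, mul, mulConst, sub, le, lt, natCases`;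
  `some, toList, optCases, inl, inr, sumCases`.
* Polynomial bounds: `PB T`, with `PB.const, id, poly, add, mul, comp, pow, mono`.
-/
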